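import Pool.Agent.Helper26.HB.Goals

set_option autoImplicit false

/-! Project HB (MP_a47ed5_al): equivariant extensions for an edge of the polytope (goal CR). -/

namespace Pool.Agent.Helper83.HB

open Pool.Agent.Helper26.HB
open Pool.Agent.Helper7.Horo (len Gen bb)

section aux
variable {G : Type} [Group G]

lemma range_fin (N : Subgroup G) [N.Normal] [N.FiniteIndex] (D : G → ℝ)
    (hD : ∀ (n : N) (g : G), D (n * g) = D g) : (Set.range D).Finite := by
  have hf : Finite (G ⧸ N) := inferInstance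
  have key : ∀ a b : G, (QuotientGroup.leftRel N) a b → D a = D b := by
    intro a b hab
    rw [QuotientGroup.leftRel_apply] at hab
    have hm : a * (a⁻¹ * b) * a⁻¹ ∈ N := Subgroup.Normal.conj_mem inferInstance _ hab a
    have e : b = ((⟨_, hm⟩ : N) : G) * a := by
      change b = a * (a⁻¹ * b) * a⁻¹ * a
      group
    rw [e, hD]
  have hsub : Set.range D ⊆ Set.range (fun q : G ⧸ N => Quotient.lift D key q) := by
    rintro _ ⟨g, rfl⟩
    exact ⟨(QuotientGroup.mk g : G ⧸ N), rfl⟩
  exact (Set.finite_range _).subset hsub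

lemma diff_fin (N : Subgroup G) [N.Normal] [N.FiniteIndex] (S : Finset G) (F : G → ℝ) (l : N → ℝ)
    (hF : ∀ (n : N) (g : G), F (n * g) = l n + F g) :
    {x : ℝ | ∃ g : G, ∃ s ∈ S, x = F (g * s) - F g}.Finite := by
  have h : {x : ℝ | ∃ g : G, ∃ s ∈ S, x = F (g * s) - F g} ⊆
      ⋃ s ∈ (S : Set G), Set.range (fun g => F (g * s) - F g) := by
    rintro x ⟨g, s, hs, rfl⟩
    simp only [Set.mem_iUnion]
    exact ⟨s, hs, g, rfl⟩
  refine Set.Finite.subset (Set.Finite.biUnion S.finite_toSet (fun s _ => ?_)) h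
  apply range_fin N
  intro n g
  rw [mul_assoc, hF, hF]
  ring

lemma diff_bnd (N : Subgroup G) [N.Normal] [N.FiniteIndex] (S : Finset G) (F : G → ℝ) (l : N → ℝ)
    (hF : ∀ (n : N) (g : G), F (n * g) = l n + F g) :
    ∃ K : ℝ, 0 ≤ K ∧ ∀ g s : G, s ∈ S → |F (g * s) - F g| ≤ K := by
  have h := (diff_fin N S F l hF).image (fun x => |x|)
  obtain ⟨K, hK⟩ := h.bddAbove
  refine ⟨max K 0, le_max_right _ _, fun g s hs => ?_⟩
  exact (hK ⟨_, ⟨g, s, hs, rfl⟩, rfl⟩).trans (le_max_left _ _)

lemma gap_fin (T : Finset ℝ) (h : ∀ x ∈ T, x < 1) : ∃ δ : ℝ, 0 < δ ∧ ∀ x ∈ T, x ≤ 1 - δ := by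
  induction T using Finset.induction_on with
  | empty => exact ⟨1, one_pos, fun x hx => absurd hx (Finset.notMem_empty x)⟩
  | insert a T _ ih =>
    obtain ⟨δ, h1, h2⟩ := ih (fun x hx => h x (Finset.mem_insert_of_mem hx))
    have ha := h a (Finset.mem_insert_self a T)
    refine ⟨min δ (1 - a), lt_min h1 (by linarith), fun x hx => ?_⟩
    rcases Finset.mem_insert.1 hx with rfl | hx
    · have := min_le_right δ (1 - x)
      linarith
    · have := min_le_left δ (1 - a)
      have := h2 x hx
      linarith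

end aux

theorem gCR : G_CR := by
  intro hPT G _ S hS N _ _ d π B u v φ hom halt hφu hφv hB hPS hPS1
  have hinv : ∀ (n : N) (g g' : G), ((n : G) * g)⁻¹ * (n * g') = g⁻¹ * g' := by
    intro n g g'
    group
  -- the function f
  obtain ⟨f, f_eq, f_lip⟩ := hPT G S N (fun g g' => g⁻¹ * g' ∈ S) (fun n => φ (π n)) 1
    (by intro x y; change φ (π (x * y)) = φ (π x) + φ (π y); rw [hom, map_add])
    (fun _ _ h => h)
    (by intro n g g' h; rw [hinv]; exact h)
    (by
      intro p j h1 h2 hp n hn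
      have hw := hPS ((1 / (j : ℝ)) • π n) ⟨p, j, n, h1, h2, hp, hn, rfl⟩
      rw [map_smul, smul_eq_mul] at hw
      have hj : (0 : ℝ) < j := by exact_mod_cast h1
      rw [one_div, inv_mul_le_iff₀ hj, mul_one] at hw
      change φ (π n) ≤ 1 * (j : ℝ)
      linarith)
  have f_lip' : ∀ g s : G, s ∈ S → f (g * s) ≤ f g + 1 := by
    intro g s hs
    apply f_lip
    rw [inv_mul_cancel_left]
    exact hs
  have f_eq' : ∀ (n : N) (g : G), f (n * g) = φ (π n) + f g := f_eq
  -- critical loops
  have crit : ∀ (p : ℕ → G) (j : ℕ), 1 ≤ j → j ≤ N.index →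
      (∀ i < j, (p i)⁻¹ * p (i + 1) ∈ S ∧ f (p (i + 1)) = f (p i) + 1) →
      ∀ n : N, p j = n * p 0 → ∃ s : ℝ, 0 ≤ s ∧ s ≤ 1 ∧ π n = (j : ℝ) • (u + s • (v - u)) := by
    intro p j h1 h2 hp n hn
    have hj : (0 : ℝ) < j := by exact_mod_cast h1
    have hsum : ∀ i ≤ j, f (p i) = f (p 0) + i := by
      intro i
      induction i with
      | zero => intro _; simp
      | succ i ih =>
        intro hi
        rw [(hp i (by omega)).2, ih (by omega)]
        push_cast
        ring
    have h3 : φ (π n) = j := by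
      have := hsum j le_rfl
      rw [hn, f_eq'] at this
      linarith
    obtain ⟨s, hs0, hs1, hs⟩ := hPS1 ((1 / (j : ℝ)) • π n)
      ⟨p, j, n, h1, h2, fun i hi => (hp i hi).1, hn, rfl⟩ (by
        rw [map_smul, smul_eq_mul, h3]
        field_simp)
    refine ⟨s, hs0, hs1, ?_⟩
    rw [← hs, smul_smul, mul_one_div_cancel hj.ne', one_smul]
  have hal : ∀ (c s : ℝ), al B u v (c • (u + s • (v - u))) = c * (1 - s) := by
    intro c s
    unfold al
    simp only [map_smul, map_add, map_sub, LinearMap.smul_apply, LinearMap.add_apply,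
      LinearMap.sub_apply, smul_eq_mul, halt]
    field_simp
    ring
  have hbe : ∀ (c s : ℝ), be B u v (c • (u + s • (v - u))) = c * s := by
    intro c s
    unfold be
    simp only [map_smul, map_add, map_sub, smul_eq_mul, halt]
    field_simp
    ring
  have hro : ∀ (c s : ℝ), ro B u v (c • (u + s • (v - u))) = 0 := by
    intro c s
    unfold ro
    rw [hal, hbe]
    ext i
    simp only [Pi.sub_apply, Pi.smul_apply, Pi.add_apply, smul_eq_mul, Pi.zero_apply]
    ring
  have al_add : ∀ x y, al B u v (x + y) = al B u v x + al B u v y := by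
    intro x y
    unfold al
    rw [map_add, LinearMap.add_apply, add_div]
  have be_add : ∀ x y, be B u v (x + y) = be B u v x + be B u v y := by
    intro x y
    unfold be
    rw [map_add, add_div]
  have ro_add : ∀ x y, ro B u v (x + y) = ro B u v x + ro B u v y := by
    intro x y
    unfold ro
    rw [al_add, be_add]
    ext i
    simp only [Pi.sub_apply, Pi.smul_apply, Pi.add_apply, smul_eq_mul]
    ring
  -- potentials for critical edges
  have pot : ∀ l : N → ℝ, (∀ x y, l (x * y) = l x + l y) →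
      (∀ (n : N) (c s : ℝ), 0 ≤ c → 0 ≤ s → s ≤ 1 → π n = c • (u + s • (v - u)) → 0 ≤ l n) →
      ∃ L : G → ℝ, (∀ (n : N) (g : G), L (n * g) = l n + L g) ∧
        ∀ g s : G, s ∈ S → f (g * s) = f g + 1 → L g ≤ L (g * s) := by
    intro l hl1 hl2
    obtain ⟨L, hL1, hL2⟩ := hPT G S N (fun g g' => g⁻¹ * g' ∈ S ∧ f g' = f g + 1)
      (fun n => - l n) 0
      (by intro x y; change - l (x * y) = - l x + - l y; rw [hl1]; ring)
      (fun _ _ h => h.1)
      (by
        intro n g g' h
        refine ⟨by rw [hinv]; exact h.1, ?_⟩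
        rw [f_eq', f_eq', h.2]
        ring)
      (by
        intro p j h1 h2 hp n hn
        obtain ⟨s, hs0, hs1, hs⟩ := crit p j h1 h2 hp n hn
        have := hl2 n j s (Nat.cast_nonneg j) hs0 hs1 hs
        change - l n ≤ 0 * (j : ℝ)
        linarith)
    refine ⟨fun g => - L g, fun n g => ?_, fun g s hs hf => ?_⟩
    · have := hL1 n g
      change - L (n * g) = l n + - L g
      rw [this]
      ring
    · have := hL2 g (g * s) ⟨by rw [inv_mul_cancel_left]; exact hs, hf⟩
      change - L g ≤ - L (g * s)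
      linarith
  obtain ⟨U, U_eq, U_mono⟩ := pot (fun n => al B u v (π n))
    (by intro x y; change al B u v (π (x * y)) = _; rw [hom, al_add])
    (by
      intro n c s hc h0 h1 h
      change 0 ≤ al B u v (π n)
      rw [h, hal]
      exact mul_nonneg hc (by linarith))
  obtain ⟨V, V_eq, V_mono⟩ := pot (fun n => be B u v (π n))
    (by intro x y; change be B u v (π (x * y)) = _; rw [hom, be_add])
    (by
      intro n c s hc h0 h1 h
      change 0 ≤ be B u v (π n)
      rw [h, hbe]
      exact mul_nonneg hc h0)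
  have hW : ∀ i : Fin d, ∃ L : G → ℝ, (∀ (n : N) (g : G), L (n * g) = ro B u v (π n) i + L g) ∧
        ∀ g s : G, s ∈ S → f (g * s) = f g + 1 → L g ≤ L (g * s) := by
    intro i
    apply pot (fun n => ro B u v (π n) i)
    · intro x y
      change ro B u v (π (x * y)) i = _
      rw [hom, ro_add]
      rfl
    · intro n c s _ _ _ h
      change 0 ≤ ro B u v (π n) i
      rw [h, hro]
      exact le_rfl
  choose W W_eq W_mono using hW
  -- bounds
  obtain ⟨KU, hKU0, hKU⟩ := diff_bnd N S U _ U_eq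
  obtain ⟨KV, hKV0, hKV⟩ := diff_bnd N S V _ V_eq
  have hKW : ∀ i : Fin d, ∃ K : ℝ, 0 ≤ K ∧ ∀ g s : G, s ∈ S → |W i (g * s) - W i g| ≤ K :=
    fun i => diff_bnd N S (W i) _ (W_eq i)
  choose KW hKW0 hKW using hKW
  have hsum0 : 0 ≤ ∑ i, KW i := Finset.sum_nonneg (fun i _ => hKW0 i)
  -- gap
  have hTf : {x : ℝ | x < 1 ∧ ∃ g : G, ∃ s ∈ S, x = f (g * s) - f g}.Finite :=
    (diff_fin N S f _ f_eq).subset (fun x hx => hx.2)
  obtain ⟨δ, hδ, hgap⟩ := gap_fin hTf.toFinset (by
    intro x hx
    rw [Set.Finite.mem_toFinset] at hx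
    exact hx.1)
  refine ⟨f, U, V, fun g i => W i g, KU + KV + ∑ i, KW i, δ, ?_⟩
  refine ⟨⟨hδ, by linarith⟩, f_eq', U_eq, V_eq, ?_, f_lip', ?_, ?_, ?_, ?_⟩
  · intro n g
    ext i
    exact W_eq i n g
  · intro g s hs
    have := hKU g s hs
    linarith
  · intro g s hs
    have := hKV g s hs
    linarith
  · intro g s hs i
    have h1 := hKW i g s hs
    have h2 : KW i ≤ ∑ i, KW i :=
      Finset.single_le_sum (fun j _ => hKW0 j) (Finset.mem_univ i)
    change |W i (g * s) - W i g| ≤ _
    linarith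
  · intro g s hs
    by_cases h : f (g * s) - f g < 1
    · left
      have := hgap (f (g * s) - f g) (by
        rw [Set.Finite.mem_toFinset]
        exact ⟨h, g, s, hs, rfl⟩)
      linarith
    · right
      have h1 := f_lip' g s hs
      have h2 : f (g * s) = f g + 1 := by
        push Not at h
        linarith
      exact ⟨U_mono g s hs h2, V_mono g s hs h2, fun i => W_mono i g s hs h2⟩

end Pool.Agent.Helper83.HB
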